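import Mathlib
import Pool.Agent.R530.LorA

/-!
# Iterated bivariate Lorenz curves of a law with a density need not become independent

The law is the uniform distribution on the region `D` of the unit square given by
`(1 - x) / 2 ≤ 1 - y ≤ 2 (1 - x)` from which the square `[0, 1/4) ^ 2` is removed.
-/

set_option autoImplicit false

namespace Pool.Agent.Results.MP_357d86_pr.NotIndependent

open MeasureTheory Set Filter Topology Pool.Agent.R530.Lor

/-! ### Definitions of the problem -/

/-- The points `u` with `u.1 ≤ F₁⁻¹(x₁)` and `u.2 ≤ F₂⁻¹(x₂)`, where `F₁⁻¹(x₁)` is the infimum of the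
`y` with `F₁(y) ≥ x₁`, `F₁` and `F₂` being the marginal distribution functions of `P`. -/
def below (P : Measure (ℝ × ℝ)) (x₁ x₂ : ℝ) : Set (ℝ × ℝ) :=
  {u | (∀ y, x₁ ≤ P.real {v | v.1 ≤ y} → u.1 ≤ y) ∧ ∀ y, x₂ ≤ P.real {v | v.2 ≤ y} → u.2 ≤ y}

/-- The bivariate Lorenz curve of the law `P`. -/
noncomputable def lorenz (P : Measure (ℝ × ℝ)) (x₁ x₂ : ℝ) : ℝ :=
  (∫ u in below P x₁ x₂, u.1 * u.2 ∂P) / ∫ u, u.1 * u.2 ∂P

/-- The value of the distribution function of the law `Q`. -/
noncomputable def df (Q : Measure (ℝ × ℝ)) (x₁ x₂ : ℝ) : ℝ := Q.real {u | u.1 ≤ x₁ ∧ u.2 ≤ x₂}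

/-- `Q` is the law on `[0, 1] ^ 2` whose distribution function is `L` on `[0, 1] ^ 2`. -/
structure IsLawOf (Q : Measure (ℝ × ℝ)) (L : ℝ → ℝ → ℝ) : Prop where
  prob : IsProbabilityMeasure Q
  conc : ∀ᵐ u ∂Q, u ∈ Icc (0 : ℝ) 1 ×ˢ Icc (0 : ℝ) 1
  eq : ∀ x₁ ∈ Icc (0 : ℝ) 1, ∀ x₂ ∈ Icc (0 : ℝ) 1, df Q x₁ x₂ = L x₁ x₂

/-- The hypotheses on `X`: nonnegative coordinates, positive finite means and mean product. -/
structure Admissible (P : Measure (ℝ × ℝ)) : Prop where
  prob : IsProbabilityMeasure P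
  nonneg : ∀ᵐ u ∂P, 0 ≤ u.1 ∧ 0 ≤ u.2
  int₁ : Integrable (fun u => u.1) P
  int₂ : Integrable (fun u => u.2) P
  int : Integrable (fun u => u.1 * u.2) P
  pos₁ : 0 < ∫ u, u.1 ∂P
  pos₂ : 0 < ∫ u, u.2 ∂P
  pos : 0 < ∫ u, u.1 * u.2 ∂P

/-- Convergence of the marginals of the iterates to `x ^ φ`, `φ` the golden ratio. -/
def MarginalsConverge (Q : ℕ → Measure (ℝ × ℝ)) : Prop :=
  TendstoUniformlyOn (fun n x => df (Q n) x 1) (fun x : ℝ => x ^ ((1 + √5) / 2)) atTop (Icc 0 1) ∧
  TendstoUniformlyOn (fun n x => df (Q n) 1 x) (fun x : ℝ => x ^ ((1 + √5) / 2)) atTop (Icc 0 1)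

/-- The iterates become independent in the limit. -/
def BecomeIndependent (Q : ℕ → Measure (ℝ × ℝ)) : Prop :=
  TendstoUniformlyOn (fun n (p : ℝ × ℝ) => df (Q n) p.1 p.2 - df (Q n) p.1 1 * df (Q n) 1 p.2)
    (fun _ => 0) atTop (Icc 0 1 ×ˢ Icc 0 1)

/-! ### The region -/

/-- The region. -/
def D : Set (ℝ × ℝ) := {p | (0 ≤ p.1 ∧ p.1 ≤ 1) ∧ (0 ≤ p.2 ∧ p.2 ≤ 1) ∧
  1 - p.1 ≤ 2 * (1 - p.2) ∧ 1 - p.2 ≤ 2 * (1 - p.1) ∧ ¬ (p.1 < 1 / 4 ∧ p.2 < 1 / 4)}

lemma D_measurable : MeasurableSet D := by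
  have m1 : Measurable fun p : ℝ × ℝ => p.1 := measurable_fst
  have m2 : Measurable fun p : ℝ × ℝ => p.2 := measurable_snd
  refine MeasurableSet.inter (MeasurableSet.inter ?_ ?_) (MeasurableSet.inter
    (MeasurableSet.inter ?_ ?_) (MeasurableSet.inter ?_ (MeasurableSet.inter ?_ ?_)))
  · exact measurableSet_le measurable_const m1
  · exact measurableSet_le m1 measurable_const
  · exact measurableSet_le measurable_const m2
  · exact measurableSet_le m2 measurable_const
  · exact measurableSet_le (measurable_const.sub m1) (measurable_const.mul (measurable_const.sub m2))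
  · exact measurableSet_le (measurable_const.sub m2) (measurable_const.mul (measurable_const.sub m1))
  · exact ((measurableSet_lt m1 measurable_const).inter (measurableSet_lt m2 measurable_const)).compl

lemma D_section {s : ℝ} (h0 : 0 ≤ s) (h1 : s ≤ 1) (v : ℝ) :
    (s, v) ∈ D ↔ v ∈ Icc (lo s) (hi s) := by
  unfold D lo hi
  simp only [mem_ofPred_eq, mem_Icc]
  constructor
  · rintro ⟨-, ⟨h2, h3⟩, h4, h5, h6⟩
    refine ⟨?_, by linarith⟩
    split_ifs with h
    · by_contra hc
      push Not at hc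
      exact h6 ⟨h, hc⟩
    · exact max_le h2 (by linarith)
  · rintro ⟨h2, h3⟩
    refine ⟨⟨h0, h1⟩, ⟨?_, by linarith⟩, by linarith, ?_, ?_⟩
    · split_ifs at h2 with h
      · linarith
      · exact (le_max_left _ _).trans h2
    · split_ifs at h2 with h
      · linarith
      · have := (le_max_right _ _).trans h2
        linarith
    · rintro ⟨h4, h5⟩
      rw [if_pos h4] at h2
      linarith

lemma D_swap (p : ℝ × ℝ) : p.swap ∈ D ↔ p ∈ D := by
  unfold D
  simp only [mem_ofPred_eq, Prod.fst_swap, Prod.snd_swap]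
  tauto

lemma D_subset : D ⊆ Icc (0 : ℝ) 1 ×ˢ Icc (0 : ℝ) 1 := fun _ hp => ⟨hp.1, hp.2.1⟩

lemma D_finite : volume D ≠ ⊤ := by
  refine ne_top_of_le_ne_top ?_ (measure_mono D_subset)
  rw [Measure.volume_eq_prod, Measure.prod_prod]
  simp

instance : IsFiniteMeasure ((volume : Measure (ℝ × ℝ)).restrict D) :=
  ⟨by rw [Measure.restrict_apply_univ]; exact D_finite.lt_top⟩

section Fubini

variable {w : ℝ → ℝ} (hw : NiceW w)

include hw

lemma integrable_D {g : ℝ × ℝ → ℝ} (hg : Measurable g) (hb : ∀ p, |g p| ≤ 1) :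
    Integrable (fun p : ℝ × ℝ => g p * (w p.1 * w p.2)) (volume.restrict D) := by
  refine Integrable.mono' (g := fun _ => (1 : ℝ)) (integrable_const _) ?_ ?_
  · exact (hg.mul ((hw.cont.measurable.comp measurable_fst).mul
      (hw.cont.measurable.comp measurable_snd))).aestronglyMeasurable
  · filter_upwards with p
    rw [Real.norm_eq_abs, abs_mul, abs_mul, abs_of_nonneg (hw.nonneg _),
      abs_of_nonneg (hw.nonneg _)]
    exact mul_le_one₀ (hb p) (mul_nonneg (hw.nonneg _) (hw.nonneg _))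
      (mul_le_one₀ (hw.le_one _) (hw.nonneg _) (hw.le_one _))

lemma fubini {g : ℝ → ℝ} (hg : Measurable g) (hb : ∀ x, |g x| ≤ 1) :
    ∫ p in D, g p.1 * (w p.1 * w p.2) = ∫ s in (0 : ℝ)..1, g s * dn w s := by
  have hint := integrable_D hw (g := fun p => g p.1) (hg.comp measurable_fst) (fun p => hb _)
  rw [← integral_indicator D_measurable, Measure.volume_eq_prod, integral_prod]
  · have hinner : ∀ s, (∫ v, D.indicator (fun p : ℝ × ℝ => g p.1 * (w p.1 * w p.2)) (s, v)) =
        (Icc (0 : ℝ) 1).indicator (fun s => g s * dn w s) s := by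
      intro s
      by_cases hs : s ∈ Icc (0 : ℝ) 1
      · rw [indicator_of_mem hs]
        have : (fun v => D.indicator (fun p : ℝ × ℝ => g p.1 * (w p.1 * w p.2)) (s, v)) =
            (Icc (lo s) (hi s)).indicator (fun v => (g s * w s) * w v) := by
          funext v
          by_cases hv : v ∈ Icc (lo s) (hi s)
          · rw [indicator_of_mem hv, indicator_of_mem ((D_section hs.1 hs.2 v).mpr hv)]
            ring
          · rw [indicator_of_notMem hv,
              indicator_of_notMem fun h => hv ((D_section hs.1 hs.2 v).mp h)]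
        rw [this, integral_indicator measurableSet_Icc, integral_const_mul,
          integral_Icc_eq_integral_Ioc, ← intervalIntegral.integral_of_le (lo_le_hi hs.1 hs.2)]
        unfold dn av
        ring
      · rw [indicator_of_notMem hs]
        have : (fun v => D.indicator (fun p : ℝ × ℝ => g p.1 * (w p.1 * w p.2)) (s, v)) =
            fun _ => 0 := by
          funext v
          exact indicator_of_notMem (fun h => hs h.1) _
        rw [this, integral_zero]
    rw [integral_congr_ae (Eventually.of_forall hinner), integral_indicator measurableSet_Icc,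
      integral_Icc_eq_integral_Ioc, intervalIntegral.integral_of_le zero_le_one]
  · rw [← Measure.volume_eq_prod, integrable_indicator_iff D_measurable]
    exact hint

lemma fubini' {g : ℝ → ℝ} (hg : Measurable g) (hb : ∀ x, |g x| ≤ 1) :
    ∫ p in D, g p.2 * (w p.1 * w p.2) = ∫ s in (0 : ℝ)..1, g s * dn w s := by
  rw [← fubini hw hg hb, ← integral_indicator D_measurable, ← integral_indicator D_measurable,
    Measure.volume_eq_prod, ← integral_prod_swap]
  refine integral_congr_ae (Eventually.of_forall fun p => ?_)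
  change D.indicator (fun p : ℝ × ℝ => g p.2 * (w p.1 * w p.2)) p.swap =
    D.indicator (fun p : ℝ × ℝ => g p.1 * (w p.1 * w p.2)) p
  by_cases h : p ∈ D
  · rw [indicator_of_mem h, indicator_of_mem ((D_swap p).mpr h)]
    simp only [Prod.fst_swap, Prod.snd_swap]
    ring
  · rw [indicator_of_notMem h, indicator_of_notMem fun h' => h ((D_swap p).mp h')]

lemma total : ∫ p in D, w p.1 * w p.2 = nrm w := by
  have := fubini hw (g := fun _ => 1) measurable_const (by simp)
  simp only [one_mul] at this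
  exact this

end Fubini

/-- The law with weight `w`. -/
noncomputable def lam (w : ℝ → ℝ) : Measure (ℝ × ℝ) :=
  (volume.restrict D).withDensity (fun p => ((w p.1 * w p.2 / nrm w).toNNReal : ENNReal))

section Lam

variable {w : ℝ → ℝ} (hw : NiceW w)

include hw

lemma meas_dens : Measurable fun p : ℝ × ℝ => (w p.1 * w p.2 / nrm w).toNNReal :=
  (((hw.cont.measurable.comp measurable_fst).mul
    (hw.cont.measurable.comp measurable_snd)).div_const _).real_toNNReal

lemma integral_lam (f : ℝ × ℝ → ℝ) :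
    ∫ p, f p ∂(lam w) = (∫ p in D, f p * (w p.1 * w p.2)) / nrm w := by
  unfold lam
  rw [integral_withDensity_eq_integral_smul (meas_dens hw), ← integral_div]
  refine integral_congr_ae (Eventually.of_forall fun p => ?_)
  simp only [NNReal.smul_def, smul_eq_mul]
  rw [Real.coe_toNNReal _ (div_nonneg (mul_nonneg (hw.nonneg _) (hw.nonneg _)) (nrm_pos hw).le)]
  ring

lemma lam_prob : IsProbabilityMeasure (lam w) := by
  have hZ := nrm_pos hw
  constructor
  unfold lam
  rw [withDensity_apply _ MeasurableSet.univ, Measure.restrict_univ]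
  have h : ∫⁻ p in D, ((w p.1 * w p.2 / nrm w).toNNReal : ENNReal) =
      ENNReal.ofReal (∫ p in D, w p.1 * w p.2 / nrm w) := by
    rw [ofReal_integral_eq_lintegral_ofReal]
    · rfl
    · have := (integrable_D hw (g := fun _ => 1) measurable_const (by simp)).div_const (nrm w)
      simpa using this
    · filter_upwards with p
      exact div_nonneg (mul_nonneg (hw.nonneg _) (hw.nonneg _)) hZ.le
  rw [h, integral_div, total hw, div_self hZ.ne', ENNReal.ofReal_one]

lemma lam_real {S : Set (ℝ × ℝ)} (hS : MeasurableSet S) :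
    (lam w).real S = (∫ p in D, S.indicator 1 p * (w p.1 * w p.2)) / nrm w := by
  rw [← integral_indicator_one hS, integral_lam hw]

omit hw in
lemma lam_ae {q : ℝ × ℝ → Prop} (h : ∀ᵐ p ∂(volume.restrict D), q p) : ∀ᵐ p ∂(lam w), q p :=
  (withDensity_absolutelyContinuous _ _) h

omit hw in
lemma ae_D : ∀ᵐ p ∂(volume.restrict D), 0 < p.1 ∧ p.1 ≤ 1 ∧ 0 < p.2 ∧ p.2 ≤ 1 ∧ p ∈ D := by
  have h1 : ∀ᵐ p ∂((volume : Measure (ℝ × ℝ)).restrict D), p ∈ D :=
    ae_restrict_mem D_measurable
  have h2 : ∀ᵐ p ∂((volume : Measure (ℝ × ℝ)).restrict D), p.1 ≠ 0 := by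
    refine ae_restrict_of_ae ?_
    have : (volume : Measure (ℝ × ℝ)) {p | ¬ p.1 ≠ 0} = 0 := by
      have e : {p : ℝ × ℝ | ¬ p.1 ≠ 0} = {(0 : ℝ)} ×ˢ univ := by
        ext p; simp
      rw [e, Measure.volume_eq_prod, Measure.prod_prod]
      simp
    exact this
  have h3 : ∀ᵐ p ∂((volume : Measure (ℝ × ℝ)).restrict D), p.2 ≠ 0 := by
    refine ae_restrict_of_ae ?_
    have : (volume : Measure (ℝ × ℝ)) {p | ¬ p.2 ≠ 0} = 0 := by
      have e : {p : ℝ × ℝ | ¬ p.2 ≠ 0} = univ ×ˢ {(0 : ℝ)} := by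
        ext p; simp
      rw [e, Measure.volume_eq_prod, Measure.prod_prod]
      simp
    exact this
  filter_upwards [h1, h2, h3] with p hp hp1 hp2
  exact ⟨lt_of_le_of_ne hp.1.1 hp1.symm, hp.1.2, lt_of_le_of_ne hp.2.1.1 hp2.symm, hp.2.1.2, hp⟩

omit hw in
lemma ind_bound (A : Set ℝ) (s : ℝ) : |A.indicator (1 : ℝ → ℝ) s| ≤ 1 := by
  by_cases h : s ∈ A
  · rw [indicator_of_mem h]; simp
  · rw [indicator_of_notMem h]; simp

lemma mass_ii {A : Set ℝ} (hA : MeasurableSet A) (a b : ℝ) :
    IntervalIntegrable (fun s => A.indicator (1 : ℝ → ℝ) s * dn w s) volume a b := by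
  refine (dn_ii hw a b).norm.mono_fun'
    (((measurable_one.indicator hA).mul (dn_measurable hw)).aestronglyMeasurable) ?_
  filter_upwards with s
  rw [norm_mul, Real.norm_eq_abs]
  exact mul_le_of_le_one_left (norm_nonneg _) (ind_bound A s)

lemma lam_fst {A : Set ℝ} (hA : MeasurableSet A) : (lam w).real {p | p.1 ∈ A} =
    (∫ s in (0 : ℝ)..1, A.indicator (1 : ℝ → ℝ) s * dn w s) / nrm w := by
  rw [lam_real hw (S := {p : ℝ × ℝ | p.1 ∈ A}) (measurable_fst hA),
    ← fubini hw (measurable_one.indicator hA) (ind_bound A)]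
  rfl

lemma lam_snd {A : Set ℝ} (hA : MeasurableSet A) : (lam w).real {p | p.2 ∈ A} =
    (∫ s in (0 : ℝ)..1, A.indicator (1 : ℝ → ℝ) s * dn w s) / nrm w := by
  rw [lam_real hw (S := {p : ℝ × ℝ | p.2 ∈ A}) (measurable_snd hA),
    ← fubini' hw (measurable_one.indicator hA) (ind_bound A)]
  rfl

lemma mass_Iic {x : ℝ} (h0 : 0 ≤ x) (h1 : x ≤ 1) :
    (∫ s in (0 : ℝ)..1, (Iic x).indicator (1 : ℝ → ℝ) s * dn w s) / nrm w = cdfn w x := by
  unfold cdfn
  rw [clip_of_mem h0 h1]
  congr 1
  rw [← intervalIntegral.integral_add_adjacent_intervals (mass_ii hw measurableSet_Iic 0 x)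
    (mass_ii hw measurableSet_Iic x 1)]
  have e1 : (∫ s in (0 : ℝ)..x, (Iic x).indicator (1 : ℝ → ℝ) s * dn w s) =
      ∫ s in (0 : ℝ)..x, dn w s := by
    refine intervalIntegral.integral_congr_ae (Eventually.of_forall fun s hs => ?_)
    rw [uIoc_of_le h0] at hs
    rw [indicator_of_mem (show s ∈ Iic x from hs.2)]
    simp
  have e2 : (∫ s in x..1, (Iic x).indicator (1 : ℝ → ℝ) s * dn w s) = 0 := by
    refine intervalIntegral.integral_zero_ae (Eventually.of_forall fun s hs => ?_)
    rw [uIoc_of_le h1] at hs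
    rw [indicator_of_notMem (show s ∉ Iic x from not_le.mpr hs.1), zero_mul]
  rw [e1, e2, add_zero]

end Lam

/-! ### The iterates -/

/-- The law number `k`: the initial law for `k = 0`, the iterate `L ^ (k - 1)` for `k ≥ 1`. -/
noncomputable def law (k : ℕ) : Measure (ℝ × ℝ) :=
  (lam (W k)).map (fun p => (Th k p.1, Th k p.2))

lemma meas_Th (k : ℕ) : Measurable (Th k) := (nice k).2.cont.measurable

lemma meas_pair (k : ℕ) : Measurable fun p : ℝ × ℝ => (Th k p.1, Th k p.2) :=
  ((meas_Th k).comp measurable_fst).prodMk ((meas_Th k).comp measurable_snd)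

lemma law_prob (k : ℕ) : IsProbabilityMeasure (law k) := by
  have := lam_prob (nice k).1
  exact Measure.isProbabilityMeasure_map (meas_pair k).aemeasurable

/-- The common marginal distribution function of `law k`. -/
noncomputable def F (k : ℕ) (y : ℝ) : ℝ :=
  (∫ s in (0 : ℝ)..1, ({s | Th k s ≤ y}).indicator (1 : ℝ → ℝ) s * dn (W k) s) / nrm (W k)

lemma law_fst (k : ℕ) (y : ℝ) : (law k).real {v | v.1 ≤ y} = F k y := by
  unfold law
  rw [map_measureReal_apply (meas_pair k) (measurableSet_le measurable_fst measurable_const)]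
  have h := lam_fst (nice k).1 (A := {s | Th k s ≤ y}) (measurableSet_le (meas_Th k) measurable_const)
  exact h

lemma law_snd (k : ℕ) (y : ℝ) : (law k).real {v | v.2 ≤ y} = F k y := by
  unfold law
  rw [map_measureReal_apply (meas_pair k) (measurableSet_le measurable_snd measurable_const)]
  have h := lam_snd (nice k).1 (A := {s | Th k s ≤ y}) (measurableSet_le (meas_Th k) measurable_const)
  exact h

lemma F_Th (k : ℕ) {x : ℝ} (h0 : 0 ≤ x) (h1 : x ≤ 1) : F k (Th k x) = Th (k + 1) x := by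
  rw [Th_succ, ← mass_Iic (nice k).1 h0 h1]
  unfold F
  congr 1
  refine intervalIntegral.integral_congr fun s hs => ?_
  rw [uIcc_of_le zero_le_one] at hs
  have hT := (nice k).2
  have : (s ∈ {s | Th k s ≤ Th k x}) ↔ s ∈ Iic x := by
    simp only [mem_ofPred_eq, mem_Iic]
    constructor
    · intro h
      by_contra hc
      push Not at hc
      exact absurd (hT.strict x s h0 hc hs.2) (not_lt.mpr h)
    · exact fun h => hT.mono h
  by_cases h : s ∈ Iic x
  · rw [indicator_of_mem h, indicator_of_mem (this.mpr h)]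
  · rw [indicator_of_notMem h, indicator_of_notMem fun h' => h (this.mp h')]

lemma F_neg (k : ℕ) {y : ℝ} (hy : y < 0) : F k y = 0 := by
  unfold F
  have : (∫ s in (0 : ℝ)..1, ({s | Th k s ≤ y}).indicator (1 : ℝ → ℝ) s * dn (W k) s) = 0 := by
    refine intervalIntegral.integral_zero_ae (Eventually.of_forall fun s _ => ?_)
    rw [indicator_of_notMem, zero_mul]
    simp only [mem_ofPred_eq, not_le]
    exact hy.trans_le ((nice k).2.nonneg s)
  rw [this, zero_div]

/-- Translation of the condition `Th k x ≤ F⁻¹(t)`. -/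
lemma quantile (k : ℕ) {x t : ℝ} (hx0 : 0 < x) (hx1 : x ≤ 1) :
    (∀ y, t ≤ F k y → Th k x ≤ y) ↔ Th (k + 1) x ≤ t := by
  have hT := (nice k).2
  have hT' := (nice (k + 1)).2
  constructor
  · intro h
    by_contra hc
    push Not at hc
    have hev : ∀ᶠ x' in 𝓝[<] x, t < Th (k + 1) x' :=
      (hT'.cont.continuousAt.eventually (lt_mem_nhds hc)).filter_mono nhdsWithin_le_nhds
    have hev2 : ∀ᶠ x' in 𝓝[<] x, x' ∈ Ioo 0 x := Ioo_mem_nhdsLT hx0
    obtain ⟨x', h1, h2⟩ := (hev.and hev2).exists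
    have h3 := h (Th k x') (by rw [F_Th k h2.1.le (h2.2.le.trans hx1)]; exact h1.le)
    exact absurd (hT.strict x' x h2.1.le h2.2 hx1) (not_lt.mpr h3)
  · intro h y hy
    by_contra hc
    push Not at hc
    rcases lt_or_ge y 0 with hy0 | hy0
    · rw [F_neg k hy0] at hy
      have := hT'.pos hx0 hx1
      linarith
    · have hivt := intermediate_value_Icc hx0.le (f := Th k) hT.cont.continuousOn
      obtain ⟨x', hx', rfl⟩ := hivt ⟨by rw [hT.zero]; exact hy0, hc.le⟩
      have hlt : x' < x := by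
        by_contra hge
        push Not at hge
        exact absurd (hT.mono hge) (not_le.mpr hc)
      rw [F_Th k hx'.1 (hx'.2.trans hx1)] at hy
      have := hT'.strict x' x hx'.1 hlt hx1
      linarith

lemma df_law (k : ℕ) (a b : ℝ) : df (law k) a b =
    (∫ p in D, ({p : ℝ × ℝ | Th k p.1 ≤ a ∧ Th k p.2 ≤ b}).indicator 1 p *
      (W k p.1 * W k p.2)) / nrm (W k) := by
  have hm : MeasurableSet {u : ℝ × ℝ | u.1 ≤ a ∧ u.2 ≤ b} :=
    (measurableSet_le measurable_fst measurable_const).inter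
      (measurableSet_le measurable_snd measurable_const)
  unfold df law
  rw [map_measureReal_apply (meas_pair k) hm, lam_real (nice k).1 (meas_pair k hm)]
  rfl

lemma below_closed (P : Measure (ℝ × ℝ)) (a b : ℝ) : IsClosed (below P a b) := by
  have : below P a b = (⋂ (y : ℝ) (_ : a ≤ P.real {v | v.1 ≤ y}), {u | u.1 ≤ y}) ∩
      ⋂ (y : ℝ) (_ : b ≤ P.real {v | v.2 ≤ y}), {u | u.2 ≤ y} := by
    ext u; simp [below]
  rw [this]
  exact (isClosed_iInter fun y => isClosed_iInter fun _ =>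
    isClosed_le continuous_fst continuous_const).inter (isClosed_iInter fun y =>
      isClosed_iInter fun _ => isClosed_le continuous_snd continuous_const)

lemma integral_law (k : ℕ) {B : Set (ℝ × ℝ)} (hB : MeasurableSet B) :
    ∫ u in B, u.1 * u.2 ∂(law k) =
      (∫ p in D, ((fun p : ℝ × ℝ => (Th k p.1, Th k p.2)) ⁻¹' B).indicator 1 p *
        (W (k + 1) p.1 * W (k + 1) p.2)) / nrm (W k) := by
  unfold law
  rw [setIntegral_map hB (by fun_prop) (meas_pair k).aemeasurable,
    ← integral_indicator (meas_pair k hB), integral_lam (nice k).1]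
  congr 1
  refine integral_congr_ae (Eventually.of_forall fun p => ?_)
  simp only
  by_cases h : p ∈ (fun p : ℝ × ℝ => (Th k p.1, Th k p.2)) ⁻¹' B
  · rw [indicator_of_mem h, indicator_of_mem h]
    simp only [W_succ, Pi.one_apply]
    ring
  · rw [indicator_of_notMem h, indicator_of_notMem h]
    ring

/-- The law number `k + 1` is given by the Lorenz curve of the law number `k`. -/
theorem law_succ (k : ℕ) : IsLawOf (law (k + 1)) (lorenz (law k)) := by
  refine ⟨law_prob _, ?_, ?_⟩
  · unfold law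
    refine (ae_map_iff (p := fun u : ℝ × ℝ => u ∈ Icc (0 : ℝ) 1 ×ˢ Icc (0 : ℝ) 1)
      (meas_pair _).aemeasurable (measurableSet_Icc.prod measurableSet_Icc)).mpr ?_
    filter_upwards with p
    have hT := (nice (k + 1)).2
    exact ⟨⟨hT.nonneg _, hT.le_one _⟩, ⟨hT.nonneg _, hT.le_one _⟩⟩
  · intro a ha b hb
    have hz := nrm_pos (nice k).1
    have hz' := nrm_pos (nice (k + 1)).1
    unfold lorenz
    rw [df_law, integral_law k (below_closed _ _ _).measurableSet]
    have hden : ∫ u, u.1 * u.2 ∂(law k) = nrm (W (k + 1)) / nrm (W k) := by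
      rw [← setIntegral_univ, integral_law k MeasurableSet.univ, ← total (nice (k + 1)).1]
      simp
    rw [hden, div_div_div_cancel_right₀ hz.ne']
    congr 1
    refine integral_congr_ae ?_
    filter_upwards [ae_D] with p hp
    have e1 := quantile k (t := a) hp.1 hp.2.1
    have e2 := quantile k (t := b) hp.2.2.1 hp.2.2.2.1
    have : (p ∈ {p : ℝ × ℝ | Th (k + 1) p.1 ≤ a ∧ Th (k + 1) p.2 ≤ b}) ↔
        p ∈ (fun p : ℝ × ℝ => (Th k p.1, Th k p.2)) ⁻¹' below (law k) a b := by
      simp only [mem_ofPred_eq, mem_preimage, below, law_fst, law_snd]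
      rw [e1, e2]
    by_cases h : p ∈ {p : ℝ × ℝ | Th (k + 1) p.1 ≤ a ∧ Th (k + 1) p.2 ≤ b}
    · rw [indicator_of_mem h, indicator_of_mem (this.mp h)]
    · rw [indicator_of_notMem h, indicator_of_notMem fun h' => h (this.mpr h')]

/-- The initial law. -/
lemma law_zero : law 0 = lam (W 0) := by
  unfold law
  have : (lam (W 0)).map (fun p => (Th 0 p.1, Th 0 p.2)) = (lam (W 0)).map id := by
    refine Measure.map_congr ?_
    refine lam_ae ?_
    filter_upwards [ae_D] with p hp
    rw [Th_zero, clip_of_mem hp.1.le hp.2.1, clip_of_mem hp.2.2.1.le hp.2.2.2.1]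
    rfl
  rw [this, Measure.map_id]

lemma law_zero_ac : law 0 ≪ volume := by
  rw [law_zero]
  exact (withDensity_absolutelyContinuous _ _).trans Measure.absolutelyContinuous_restrict

lemma law_zero_ae : ∀ᵐ u ∂(law 0), 0 < u.1 ∧ u.1 ≤ 1 ∧ 0 < u.2 ∧ u.2 ≤ 1 := by
  rw [law_zero]
  refine lam_ae ?_
  filter_upwards [ae_D] with p hp
  exact ⟨hp.1, hp.2.1, hp.2.2.1, hp.2.2.2.1⟩

lemma integral_pos_of_ae {P : Measure (ℝ × ℝ)} [IsProbabilityMeasure P] {f : ℝ × ℝ → ℝ}
    (hf : Integrable f P) (h : ∀ᵐ u ∂P, 0 < f u) : 0 < ∫ u, f u ∂P := by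
  rw [integral_pos_iff_support_of_nonneg_ae (h.mono fun u hu => hu.le) hf]
  have : P (Function.support f) = 1 := by
    rw [prob_compl_eq_zero_iff₀ ?_ |>.symm]
    · exact measure_mono_null (fun u hu => by simpa using hu) (h.mono fun u hu => hu.ne')
    · exact hf.aestronglyMeasurable.aemeasurable.nullMeasurable (MeasurableSet.singleton 0).compl
  rw [this]
  exact one_pos

lemma law_zero_admissible : Admissible (law 0) := by
  have hp := law_prob 0
  have hae := law_zero_ae
  have i1 : Integrable (fun u : ℝ × ℝ => u.1) (law 0) :=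
    Integrable.mono' (integrable_const (1 : ℝ)) (by fun_prop) (by
      filter_upwards [hae] with u hu
      rw [Real.norm_eq_abs, abs_of_pos hu.1]
      exact hu.2.1)
  have i2 : Integrable (fun u : ℝ × ℝ => u.2) (law 0) :=
    Integrable.mono' (integrable_const (1 : ℝ)) (by fun_prop) (by
      filter_upwards [hae] with u hu
      rw [Real.norm_eq_abs, abs_of_pos hu.2.2.1]
      exact hu.2.2.2)
  have i3 : Integrable (fun u : ℝ × ℝ => u.1 * u.2) (law 0) :=
    Integrable.mono' (integrable_const (1 : ℝ)) (by fun_prop) (by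
      filter_upwards [hae] with u hu
      rw [Real.norm_eq_abs, abs_of_pos (mul_pos hu.1 hu.2.2.1)]
      exact mul_le_one₀ hu.2.1 hu.2.2.1.le hu.2.2.2)
  exact ⟨hp, hae.mono fun u hu => ⟨hu.1.le, hu.2.2.1.le⟩, i1, i2, i3,
    integral_pos_of_ae i1 (hae.mono fun u hu => hu.1),
    integral_pos_of_ae i2 (hae.mono fun u hu => hu.2.2.1),
    integral_pos_of_ae i3 (hae.mono fun u hu => mul_pos hu.1 hu.2.2.1)⟩

/-- There is no mass with the first coordinate away from `1` and the second one very close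
to `1`. -/
lemma no_mass (k : ℕ) {δ : ℝ} (hδ : 0 < δ) (hδ1 : δ ≤ G 1 (3 / 4)) :
    df (law (k + 1)) (1 - 4 * δ) 1 = df (law (k + 1)) (1 - 4 * δ) (1 - δ) := by
  rw [df_law, df_law]
  congr 1
  refine integral_congr_ae ?_
  have hT := (nice (k + 1)).2
  filter_upwards [ae_D] with p hp
  have : (p ∈ {p : ℝ × ℝ | Th (k + 1) p.1 ≤ 1 - 4 * δ ∧ Th (k + 1) p.2 ≤ 1}) ↔
      p ∈ {p : ℝ × ℝ | Th (k + 1) p.1 ≤ 1 - 4 * δ ∧ Th (k + 1) p.2 ≤ 1 - δ} := by
    simp only [mem_ofPred_eq]
    constructor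
    · rintro ⟨h1, -⟩
      refine ⟨h1, ?_⟩
      by_contra hc
      push Not at hc
      obtain ⟨hp1, hp1', hp2, hp2', -, -, q1, q2, -⟩ := hp
      have g2 : G (k + 1) p.2 < δ := by unfold G; linarith
      have hlow := G_lower k
      have h34 : 3 / 4 < p.2 := by
        by_contra hle
        push Not at hle
        have := hT.mono hle
        unfold G at g2 hlow hδ1
        linarith
      have hlt1 : p.1 < 1 := by
        by_contra hge
        push Not at hge
        have := hT.mono hge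
        rw [hT.one] at this
        linarith
      have hlt2 : p.2 < 1 := by linarith
      rcases le_total p.1 p.2 with hle | hle
      · have h4 := G_four k (a := p.1) (b := p.2) (by linarith) hle hlt2 q1
        have h5 : G (k + 1) p.1 < 4 * δ := by linarith
        unfold G at h5
        linarith
      · have := hT.mono hle
        linarith
    · rintro ⟨h1, h2⟩
      exact ⟨h1, by linarith⟩
  by_cases h : p ∈ {p : ℝ × ℝ | Th (k + 1) p.1 ≤ 1 - 4 * δ ∧ Th (k + 1) p.2 ≤ 1}
  · rw [indicator_of_mem h, indicator_of_mem (this.mp h)]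
  · rw [indicator_of_notMem h, indicator_of_notMem fun h' => h (this.mpr h')]

theorem not_both : ¬ (MarginalsConverge (fun n => law (n + 1)) ∧
    BecomeIndependent (fun n => law (n + 1))) := by
  rintro ⟨⟨h1, h2⟩, h3⟩
  set φ : ℝ := (1 + √5) / 2 with hφ
  have hφ0 : 0 < φ := by positivity
  have hg : 0 < G 1 (3 / 4) := G_pos 1 (by norm_num) (by norm_num)
  obtain ⟨δ, hδ0, hδ1, hδ2⟩ : ∃ δ : ℝ, 0 < δ ∧ δ ≤ G 1 (3 / 4) ∧ δ ≤ 1 / 8 :=
    ⟨min (G 1 (3 / 4)) (1 / 8), lt_min hg (by norm_num), min_le_left _ _, min_le_right _ _⟩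
  set a : ℝ := 1 - 4 * δ with ha
  set b : ℝ := 1 - δ with hb
  have ha' : a ∈ Icc (0 : ℝ) 1 := ⟨by linarith, by linarith⟩
  have hb' : b ∈ Icc (0 : ℝ) 1 := ⟨by linarith, by linarith⟩
  have t1 := h1.tendsto_at ha'
  have t2 := h2.tendsto_at hb'
  have t3 := h3.tendsto_at (x := (a, b)) ⟨ha', hb'⟩
  simp only at t3
  have t4 : Tendsto (fun n => df (law (n + 1)) a 1 - df (law (n + 1)) a 1 *
      df (law (n + 1)) 1 b) atTop (𝓝 (a ^ φ - a ^ φ * b ^ φ)) := t1.sub (t1.mul t2)
  have t5 : Tendsto (fun n => df (law (n + 1)) a 1 - df (law (n + 1)) a 1 *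
      df (law (n + 1)) 1 b) atTop (𝓝 0) := by
    refine t3.congr fun n => ?_
    rw [no_mass n hδ0 hδ1]
  have h6 := tendsto_nhds_unique t4 t5
  have h7 : 0 < a ^ φ := Real.rpow_pos_of_pos (by linarith) _
  have h8 : b ^ φ < 1 := Real.rpow_lt_one (by linarith) (by linarith) hφ0
  nlinarith

/-- There is a law `P` on `[0, ∞) ^ 2` with a density, with positive finite means and mean product,
such that for its iterated Lorenz curves (i) or (ii) fails. -/
theorem result : ∃ P : Measure (ℝ × ℝ), Admissible P ∧ P ≪ volume ∧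
    ∃ Q : ℕ → Measure (ℝ × ℝ), IsLawOf (Q 0) (lorenz P) ∧
      (∀ n, IsLawOf (Q (n + 1)) (lorenz (Q n))) ∧ ¬ (MarginalsConverge Q ∧ BecomeIndependent Q) :=
  ⟨law 0, law_zero_admissible, law_zero_ac, fun n => law (n + 1), law_succ 0,
    fun n => law_succ (n + 1), not_both⟩

end Pool.Agent.Results.MP_357d86_pr.NotIndependent
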